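import Pool.Agent.W2helper26.PB.Stm
import Pool.Agent.H620R2.Gauge.S

/-!
# Piece CNT of project PB
-/

set_option autoImplicit false

namespace Pool.Agent.W2helper80.PB

open Pool.Agent.NPC Pool.Agent.H620R2.Gauge Pool.Agent.W2helper26.PB Filter

open Classical in
theorem card_le {c₀ N : ℕ} (t : ℕ) (ht : Nat.log 2 N = t)
    (hfin : {y : List Bool | (∃ i m, y = gam c₀ i m) ∧ y.length ≤ t}.Finite) :
    ((Finset.range N).filter (fun n => ∃ i m, str n = gam c₀ i m)).card ≤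
      {y : List Bool | (∃ i m, y = gam c₀ i m) ∧ y.length ≤ t}.ncard := by
  rw [← Set.ncard_coe_finset]
  refine Set.ncard_le_ncard_of_injOn str ?_ (str_injective.injOn) hfin
  intro n hn
  simp only [Finset.coe_filter, Finset.mem_range, Set.mem_setOf_eq] at hn ⊢
  refine ⟨hn.2, ?_⟩
  rw [length_str, ← ht]
  exact Nat.log_mono_right hn.1

/-- Piece CNT. -/
theorem p_cnt : P_cnt := by
  classical
  intro h0 ε hε
  obtain ⟨c₀, hc⟩ := pow_unbounded_of_one_lt (4 / ε) (one_lt_two : (1 : ℝ) < 2)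
  refine ⟨c₀, ?_⟩
  filter_upwards [eventually_ge_atTop (2 ^ 4)] with N hN
  have hN0 : N ≠ 0 := by
    rintro rfl
    norm_num at hN
  have ht4 : 4 ≤ Nat.log 2 N := (Nat.le_log_iff_pow_le (by norm_num) hN0).2 hN
  obtain ⟨hfin, hle⟩ := h0 c₀ (Nat.log 2 N) ht4
  have h1 : (((Finset.range N).filter (fun n => ∃ i m, str n = gam c₀ i m)).card : ℝ) ≤
      ({y : List Bool | (∃ i m, y = gam c₀ i m) ∧ y.length ≤ Nat.log 2 N}.ncard : ℝ) := by
    exact_mod_cast card_le (Nat.log 2 N) rfl hfin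
  have htr : (4 : ℝ) ≤ ((Nat.log 2 N : ℕ) : ℝ) := by exact_mod_cast ht4
  have h2 : ((Nat.log 2 N : ℕ) : ℝ) ≤ Real.logb 2 N := by
    rw [Real.le_logb_iff_rpow_le (by norm_num) (by exact_mod_cast Nat.pos_of_ne_zero hN0),
      Real.rpow_natCast]
    exact_mod_cast Nat.pow_log_le_self 2 hN0
  have h3 : (2 : ℝ) ≤ Real.logb 2 ((Nat.log 2 N : ℕ) : ℝ) := by
    rw [Real.le_logb_iff_rpow_le (by norm_num) (by linarith)]
    norm_num
    linarith
  have h4 : Real.logb 2 ((Nat.log 2 N : ℕ) : ℝ) ≤ Real.logb 2 (Real.logb 2 N) :=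
    Real.logb_le_logb_of_le (by norm_num) (by linarith) h2
  have h5 : Real.logb 2 (Real.logb 2 ((Nat.log 2 N : ℕ) : ℝ)) ≤
      Real.logb 2 (Real.logb 2 (Real.logb 2 N)) :=
    Real.logb_le_logb_of_le (by norm_num) (by linarith) h4
  have h6 : (0 : ℝ) ≤ Real.logb 2 (Real.logb 2 ((Nat.log 2 N : ℕ) : ℝ)) :=
    Real.logb_nonneg (by norm_num) (by linarith)
  have h7 : (4 : ℝ) / 2 ^ c₀ ≤ ε := by
    rw [div_le_iff₀ (by positivity)]
    rw [div_lt_iff₀ hε] at hc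
    linarith
  calc _ ≤ _ := h1
    _ ≤ _ := hle
    _ ≤ ε * Real.logb 2 (Real.logb 2 ((Nat.log 2 N : ℕ) : ℝ)) :=
        mul_le_mul_of_nonneg_right h7 h6
    _ ≤ _ := mul_le_mul_of_nonneg_left h5 hε.le

end Pool.Agent.W2helper80.PB
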